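import Pool.Agent.H30.AEPath

set_option autoImplicit false

namespace Pool.Agent.Results.MP_fe1fea_co.Disproof

open Pool.Agent.H30.AE

/-- Q1 is false: it is not true that for every graph `H` with at least three edges the upper
threshold `f⁺_H(n)` is `Θ(max_e f⁻_{H-e}(n))`. The counterexample is the triangle. -/
theorem result :
    ¬ ∀ (V : Type) [Fintype V] [DecidableEq V] (H : SimpleGraph V) [DecidableRel H.Adj],
      3 ≤ H.edgeFinset.card →
      ∃ c C : ℝ, 0 < c ∧ c < C ∧ ∃ n₀ : ℕ, ∀ n : ℕ, n₀ ≤ n →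
        c * ((H.edgeFinset.sup (fun e => fMinus (delEdge H e) n) : ℕ) : ℝ) ≤ (fPlus H n : ℝ) ∧
        (fPlus H n : ℝ) ≤ C * ((H.edgeFinset.sup (fun e => fMinus (delEdge H e) n) : ℕ) : ℝ) := by
  intro h
  obtain ⟨c, C, hc, -, n₀, H⟩ := h (Fin 3) ⊤ (by decide)
  obtain ⟨n, hn, hlt⟩ := fPlus_small c hc n₀
  have h1 := (H n hn).1
  have h2 : fMinus (delEdge (⊤ : SimpleGraph (Fin 3)) s(0, 1)) n ≤
      (⊤ : SimpleGraph (Fin 3)).edgeFinset.sup (fun e => fMinus (delEdge ⊤ e) n) :=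
    Finset.le_sup (f := fun e => fMinus (delEdge (⊤ : SimpleGraph (Fin 3)) e) n) (by decide)
  have h3 : (fMinus (delEdge (⊤ : SimpleGraph (Fin 3)) s(0, 1)) n : ℝ) ≤
      (((⊤ : SimpleGraph (Fin 3)).edgeFinset.sup (fun e => fMinus (delEdge ⊤ e) n) : ℕ) : ℝ) := by
    exact_mod_cast h2
  nlinarith

end Pool.Agent.Results.MP_fe1fea_co.Disproof
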